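import Pool.Agent.Run7.h202.Wil.Typ

set_option autoImplicit false

/-! # Averages over the progressions of a given difference -/

namespace Run7.h202.Wil

open Finset Filter Pool.Agent.Helper92K9.WI
open scoped Nat

lemma step (u v : ℝ) (hv : 0 ≤ v) (huv : v ≤ u) (h : u ^ 3 = v ^ 3 + 1) :
    1 / u ≤ 3 / 2 * u ^ 2 - 3 / 2 * v ^ 2 := by
  have hu : 0 < u := by
    by_contra hc
    have hu0 : u = 0 := le_antisymm (not_lt.1 hc) (hv.trans huv)
    have hv0 : v = 0 := le_antisymm (huv.trans hu0.le) hv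
    rw [hu0, hv0] at h
    norm_num at h
  rw [div_le_iff₀ hu]
  have h1 : (1 : ℝ) = (u - v) * (u ^ 2 + u * v + v ^ 2) := by linarith
  have h2 : 0 ≤ (u - v) * (u ^ 2 / 2 + u * v / 2 - v ^ 2) := by
    apply mul_nonneg (by linarith)
    nlinarith [mul_nonneg hv (sub_nonneg.2 huv), mul_nonneg hu.le (sub_nonneg.2 huv)]
  nlinarith

lemma sum_rpow (y : ℕ) :
    ∑ n ∈ Icc 1 y, 1 / (n : ℝ) ^ (1 / 3 : ℝ) ≤ 3 / 2 * (y : ℝ) ^ (2 / 3 : ℝ) := by
  induction y with
  | zero =>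
    simp
  | succ n ih =>
    rw [sum_Icc_succ_top (by omega)]
    set u : ℝ := ((n + 1 : ℕ) : ℝ) ^ (1 / 3 : ℝ) with hu
    set v : ℝ := ((n : ℕ) : ℝ) ^ (1 / 3 : ℝ) with hv
    have hn0 : (0 : ℝ) ≤ ((n : ℕ) : ℝ) := Nat.cast_nonneg _
    have hn1 : (0 : ℝ) ≤ ((n + 1 : ℕ) : ℝ) := Nat.cast_nonneg _
    have e1 : ((n + 1 : ℕ) : ℝ) ^ (2 / 3 : ℝ) = u ^ 2 := by
      rw [hu, ← Real.rpow_natCast, ← Real.rpow_mul hn1]
      norm_num
    have e2 : ((n : ℕ) : ℝ) ^ (2 / 3 : ℝ) = v ^ 2 := by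
      rw [hv, ← Real.rpow_natCast, ← Real.rpow_mul hn0]
      norm_num
    have e3 : u ^ 3 = v ^ 3 + 1 := by
      have a1 : u ^ 3 = ((n + 1 : ℕ) : ℝ) := by
        rw [hu, ← Real.rpow_natCast, ← Real.rpow_mul hn1]
        norm_num
      have a2 : v ^ 3 = ((n : ℕ) : ℝ) := by
        rw [hv, ← Real.rpow_natCast, ← Real.rpow_mul hn0]
        norm_num
      rw [a1, a2]
      push_cast
      ring
    have hv0 : 0 ≤ v := Real.rpow_nonneg hn0 _
    have huv : v ≤ u := by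
      rw [hu, hv]
      apply Real.rpow_le_rpow hn0 _ (by norm_num)
      push_cast
      linarith
    have := step u v hv0 huv e3
    rw [e1]
    rw [e2] at ih
    linarith

open scoped Classical in
lemma card_one (a : ℤ) (c : ℤ) {X p : ℕ} (hp1 : 1 ≤ p) (hpX : p ≤ X) :
    (((Ioc c (c + X)).filter (fun b => IsWilson b a p)).card : ℝ) ≤
      5 * X * (1 / (p : ℝ) ^ (1 / 3 : ℝ)) := by
  have hp0 : (0 : ℝ) < p := by exact_mod_cast hp1
  have hc0 : (0 : ℝ) < (p : ℝ) ^ (1 / 3 : ℝ) := Real.rpow_pos_of_pos hp0 _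
  by_cases hp : p.Prime ∧ ¬ (p : ℤ) ∣ a
  · by_cases hp2 : p = 2
    · have h1 : (((Ioc c (c + X)).filter (fun b => IsWilson b a p)).card : ℝ) ≤ X := by
        have := card_filter_le (Ioc c (c + X)) (fun b => IsWilson b a p)
        rw [Int.card_Ioc] at this
        have e : (c + (X : ℤ) - c).toNat = X := by
          rw [add_sub_cancel_left]
          exact Int.toNat_natCast X
        rw [e] at this
        exact_mod_cast this
      refine h1.trans ?_
      have h2 : (p : ℝ) ^ (1 / 3 : ℝ) ≤ 5 := by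
        rw [hp2]
        calc ((2 : ℕ) : ℝ) ^ (1 / 3 : ℝ) ≤ ((2 : ℕ) : ℝ) ^ (1 : ℝ) :=
              Real.rpow_le_rpow_of_exponent_le (by norm_num) (by norm_num)
          _ ≤ 5 := by norm_num
      have h3 : (1 : ℝ) / 5 ≤ 1 / (p : ℝ) ^ (1 / 3 : ℝ) := one_div_le_one_div_of_le hc0 h2
      have hX : (0 : ℝ) ≤ X := Nat.cast_nonneg X
      nlinarith
    · set q := X / p + 1 with hq
      have h1 := card_interval hp.1 hp2 a hp.2 q c
      have hXq : X ≤ p * q := by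
        rw [hq, mul_add, mul_one]
        have := Nat.div_add_mod X p
        have := Nat.mod_lt X hp1
        omega
      have h2 : (((Ioc c (c + X)).filter (fun b => IsWilson b a p)).card : ℝ) ≤
          (((Ioc c (c + (p * q : ℕ))).filter (fun b => IsWilson b a p)).card : ℝ) := by
        have hsub : Ioc c (c + (X : ℤ)) ⊆ Ioc c (c + (p * q : ℕ)) := by
          apply Ioc_subset_Ioc_right
          have : (X : ℤ) ≤ (p * q : ℕ) := by exact_mod_cast hXq
          linarith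
        exact_mod_cast card_le_card (filter_subset_filter _ hsub)
      have h3 : (q : ℝ) ≤ 2 * X / p := by
        rw [le_div_iff₀ hp0]
        have : q * p ≤ 2 * X := by
          rw [hq, add_mul, one_mul]
          have := Nat.div_mul_le_self X p
          omega
        exact_mod_cast this
      have h4 : 3 / 2 * (p : ℝ) ^ (2 / 3 : ℝ) + 1 ≤ 5 / 2 * (p : ℝ) ^ (2 / 3 : ℝ) := by
        have : (1 : ℝ) ≤ (p : ℝ) ^ (2 / 3 : ℝ) :=
          Real.one_le_rpow (by exact_mod_cast hp1) (by norm_num)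
        linarith
      have h5 : (0 : ℝ) ≤ q := Nat.cast_nonneg _
      have e1 : (p : ℝ) = (p : ℝ) ^ (2 / 3 : ℝ) * (p : ℝ) ^ (1 / 3 : ℝ) := by
        rw [← Real.rpow_add hp0]
        norm_num
      have hd0 : (0 : ℝ) < (p : ℝ) ^ (2 / 3 : ℝ) := Real.rpow_pos_of_pos hp0 _
      calc (((Ioc c (c + X)).filter (fun b => IsWilson b a p)).card : ℝ)
          ≤ q * (3 / 2 * (p : ℝ) ^ (2 / 3 : ℝ) + 1) := h2.trans h1
        _ ≤ (2 * X / p) * (5 / 2 * (p : ℝ) ^ (2 / 3 : ℝ)) := by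
            apply mul_le_mul h3 h4 (by positivity) (by positivity)
        _ = 5 * X * (1 / (p : ℝ) ^ (1 / 3 : ℝ)) := by
            set u := (p : ℝ) ^ (1 / 3 : ℝ)
            set v := (p : ℝ) ^ (2 / 3 : ℝ)
            rw [e1]
            field_simp
  · have : (Ioc c (c + X)).filter (fun b => IsWilson b a p) = ∅ := by
      rw [filter_eq_empty_iff]
      intro b _ hb
      exact hp ⟨hb.1, hb.2.1⟩
    rw [this]
    simp
    positivity

open scoped Classical in
/-- **average over the progressions of difference `a`** -/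
theorem avg_prog (a c : ℤ) {X y : ℕ} (hXy : y ≤ X) :
    ∑ b ∈ Ioc c (c + X), (((Icc 1 y).filter (fun p => IsWilson b a p)).card : ℝ) ≤
      8 * X * (y : ℝ) ^ (2 / 3 : ℝ) := by
  have h1 : ∑ b ∈ Ioc c (c + X), (((Icc 1 y).filter (fun p => IsWilson b a p)).card : ℝ) =
      ∑ p ∈ Icc 1 y, (((Ioc c (c + X)).filter (fun b => IsWilson b a p)).card : ℝ) := by
    simp only [card_filter]
    push_cast
    rw [sum_comm]
  rw [h1]
  calc ∑ p ∈ Icc 1 y, (((Ioc c (c + X)).filter (fun b => IsWilson b a p)).card : ℝ)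
      ≤ ∑ p ∈ Icc 1 y, 5 * X * (1 / (p : ℝ) ^ (1 / 3 : ℝ)) :=
        sum_le_sum fun p hp => card_one a c (mem_Icc.1 hp).1 ((mem_Icc.1 hp).2.trans hXy)
    _ = 5 * X * ∑ p ∈ Icc 1 y, 1 / (p : ℝ) ^ (1 / 3 : ℝ) := by rw [mul_sum]
    _ ≤ 5 * X * (3 / 2 * (y : ℝ) ^ (2 / 3 : ℝ)) :=
        mul_le_mul_of_nonneg_left (sum_rpow y) (by positivity)
    _ ≤ 8 * X * (y : ℝ) ^ (2 / 3 : ℝ) := by
        have : (0 : ℝ) ≤ X * (y : ℝ) ^ (2 / 3 : ℝ) := by positivity
        nlinarith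

end Run7.h202.Wil
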