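import Mathlib

set_option autoImplicit false

/-! # Wilson's congruence of order `n` modulo `p ^ 2`: equal values at `n` and `n + L` -/

namespace Run7.h202.Wil

open Finset Polynomial
open scoped Nat

/-- `(-1)^n (n-1)! (p-n)!` -/
def A (p n : ℕ) : ℤ := (-1) ^ n * ((n - 1)! : ℕ) * ((p - n)! : ℕ)

lemma asc_dvd (p : ℤ) (L : ℕ) (x : ℤ) :
    ∃ k : ℤ, (ascPochhammer ℤ L).eval (x - p) =
      (ascPochhammer ℤ L).eval x - (derivative (ascPochhammer ℤ L)).eval x * p + k * p ^ 2 := by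
  obtain ⟨k, hk⟩ := Polynomial.binomExpansion (ascPochhammer ℤ L) x (-p)
  refine ⟨k, ?_⟩
  rw [sub_eq_add_neg, hk]
  ring

lemma key {p n L : ℕ} (hp : p.Prime) (hn : 1 ≤ n) (hm : n + L ≤ p)
    (hw : (p : ℤ) ^ 2 ∣ A p (n + L) - A p n) :
    (p : ℤ) ∣ (derivative (ascPochhammer ℤ L)).eval (n : ℤ) := by
  have hpz : (p : ℤ) ≠ 0 := by exact_mod_cast hp.ne_zero
  have h1 : (((n + L - 1)! : ℕ) : ℤ) = ((n - 1)! : ℕ) * (n.ascFactorial L : ℕ) := by
    have := Nat.factorial_mul_ascFactorial' n L hn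
    exact_mod_cast this.symm
  have h2 : (((p - n)! : ℕ) : ℤ) = ((p - (n + L))! : ℕ) * ((p - n).descFactorial L : ℕ) := by
    have := Nat.factorial_mul_descFactorial (n := p - n) (k := L) (by omega)
    rw [Nat.sub_sub] at this
    exact_mod_cast this.symm
  have h3 : ((n.ascFactorial L : ℕ) : ℤ) = (ascPochhammer ℤ L).eval (n : ℤ) := by
    rw [← Nat.cast_ascFactorial]
  have h4 : (((p - n).descFactorial L : ℕ) : ℤ) * (-1) ^ L =
      (ascPochhammer ℤ L).eval ((n : ℤ) - p) := by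
    have e : (n : ℤ) - p = - (((p - n : ℕ)) : ℤ) := by
      rw [Nat.cast_sub (by omega)]
      ring
    rw [e, ascPochhammer_eval_neg_eq_descPochhammer, descPochhammer_eval_eq_descFactorial]
    ring
  obtain ⟨k, hk⟩ := asc_dvd (p : ℤ) L (n : ℤ)
  -- the common factor
  set K : ℤ := (-1) ^ n * ((n - 1)! : ℕ) * ((p - (n + L))! : ℕ) with hK
  have h5 : A p (n + L) - A p n = K * (-1) ^ L *
      ((derivative (ascPochhammer ℤ L)).eval (n : ℤ) * p - k * p ^ 2) := by
    have e1 : ((-1 : ℤ) ^ L) * (-1) ^ L = 1 := by rw [← mul_pow]; simp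
    have h6 : (((p - n).descFactorial L : ℕ) : ℤ) =
        (-1) ^ L * (ascPochhammer ℤ L).eval ((n : ℤ) - p) := by
      rw [← h4]
      linear_combination (-(((p - n).descFactorial L : ℕ) : ℤ)) * e1
    unfold A
    rw [h1, h2, h3, h6, hk, hK, pow_add]
    ring
  have hcop : IsCoprime ((p : ℤ) ^ 2) (K * (-1) ^ L) := by
    apply IsCoprime.pow_left
    rw [hK]
    have hu : ∀ j : ℕ, IsCoprime (p : ℤ) ((-1) ^ j) := fun j =>
      IsCoprime.pow_right ⟨0, -1, by ring⟩
    have hf : ∀ j : ℕ, j < p → IsCoprime (p : ℤ) ((j ! : ℕ) : ℤ) := by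
      intro j hj
      rw [Nat.isCoprime_iff_coprime]
      rw [Nat.Prime.coprime_iff_not_dvd hp, hp.dvd_factorial]
      omega
    exact (((hu n).mul_right (hf (n - 1) (by omega))).mul_right
      (hf (p - (n + L)) (by omega))).mul_right (hu L)
  rw [h5] at hw
  have h7 := hcop.dvd_of_dvd_mul_left hw
  have h8 : (p : ℤ) ^ 2 ∣ (derivative (ascPochhammer ℤ L)).eval (n : ℤ) * p := by
    have := dvd_add h7 (Dvd.intro_left k rfl : (p : ℤ) ^ 2 ∣ k * p ^ 2)
    simpa using this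
  rw [pow_two] at h8
  exact (mul_dvd_mul_iff_right hpz).1 h8

/-- at most `d - 1` solutions -/
lemma card_gap {p d : ℕ} (hp : p.Prime) (hd : 1 ≤ d) (hdp : d < p) (T : Finset ℕ)
    (hT : ∀ t ∈ T, 1 ≤ t ∧ t ≤ p)
    (h : ∀ t ∈ T, (p : ℤ) ∣ (derivative (ascPochhammer ℤ d)).eval (t : ℤ)) :
    T.card ≤ d - 1 := by
  have : Fact p.Prime := ⟨hp⟩
  set f : (ZMod p)[X] := derivative (ascPochhammer (ZMod p) d) with hf
  have hmon : (ascPochhammer (ZMod p) d).Monic := monic_ascPochhammer _ _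
  have hdeg : (ascPochhammer (ZMod p) d).natDegree = d := ascPochhammer_natDegree _ _
  have hcoeff : f.coeff (d - 1) ≠ 0 := by
    rw [hf, coeff_derivative]
    have e : d - 1 + 1 = d := by omega
    rw [e]
    have h1 : (ascPochhammer (ZMod p) d).coeff d = 1 := by
      have := hmon.coeff_natDegree
      rwa [hdeg] at this
    rw [h1, one_mul]
    have e2 : (((d - 1 : ℕ) : ZMod p) + 1) = ((d : ℕ) : ZMod p) := by
      have : ((d - 1 : ℕ) : ZMod p) + 1 = ((d - 1 + 1 : ℕ) : ZMod p) := by push_cast; ring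
      rw [this, e]
    rw [e2]
    intro h0
    rw [ZMod.natCast_eq_zero_iff] at h0
    exact absurd (Nat.le_of_dvd (by omega) h0) (by omega)
  have hf0 : f ≠ 0 := fun h0 => hcoeff (by rw [h0, coeff_zero])
  have hnd : f.natDegree ≤ d - 1 := by
    refine (natDegree_derivative_le _).trans ?_
    rw [hdeg]
  have hmap : f = (derivative (ascPochhammer ℤ d)).map (Int.castRingHom (ZMod p)) := by
    rw [hf, ← derivative_map, ascPochhammer_map]
  have hroot : ∀ t ∈ T, ((t : ℕ) : ZMod p) ∈ f.roots.toFinset := by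
    intro t ht
    rw [Multiset.mem_toFinset, mem_roots hf0, IsRoot.def, hmap]
    have h1 := h t ht
    have h2 : (((derivative (ascPochhammer ℤ d)).eval (t : ℤ) : ℤ) : ZMod p) = 0 := by
      rwa [ZMod.intCast_zmod_eq_zero_iff_dvd]
    have h3 : eval ((t : ℕ) : ZMod p) ((derivative (ascPochhammer ℤ d)).map (Int.castRingHom (ZMod p)))
        = (Int.castRingHom (ZMod p)) ((derivative (ascPochhammer ℤ d)).eval (t : ℤ)) := by
      have e : ((t : ℕ) : ZMod p) = (Int.castRingHom (ZMod p)) (t : ℤ) := by simp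
      rw [e, eval_map, eval₂_at_apply]
    rw [h3]
    simpa using h2
  have hinj : Set.InjOn (fun t : ℕ => ((t : ℕ) : ZMod p)) (T : Set ℕ) := by
    intro s hs t ht hst
    have hs' := hT s hs
    have ht' := hT t ht
    have h1 : s ≡ t [MOD p] := (ZMod.natCast_eq_natCast_iff _ _ _).1 hst
    have h2 : (p : ℤ) ∣ (t : ℤ) - s := (Nat.modEq_iff_dvd.1 h1)
    have h3 : (t : ℤ) - s = 0 := by
      apply Int.eq_zero_of_abs_lt_dvd h2
      rw [abs_lt]
      constructor <;> omega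
    omega
  calc T.card = (T.image (fun t : ℕ => ((t : ℕ) : ZMod p))).card :=
        (card_image_of_injOn hinj).symm
    _ ≤ f.roots.toFinset.card := card_le_card (by
        intro x hx
        obtain ⟨t, ht, rfl⟩ := mem_image.1 hx
        exact hroot t ht)
    _ ≤ Multiset.card f.roots := Multiset.toFinset_card_le _
    _ ≤ f.natDegree := card_roots' f
    _ ≤ d - 1 := hnd

/-- sets with few pairs at every small distance are small -/
lemma card_le_block (T : Finset ℕ) (a N D : ℕ) (hN : 1 ≤ N) (hT : T ⊆ Ioc a (a + N))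
    (h : ∀ d, 1 ≤ d → (T.filter (fun t => t + d ∈ T)).card ≤ d - 1) :
    T.card ≤ (N - 1) / (D + 1) + 1 + ∑ d ∈ Icc 1 D, (d - 1) := by
  classical
  set M := T.filter (fun t => ∀ d ∈ Icc 1 D, t + d ∉ T) with hM
  have hcov : T ⊆ M ∪ (Icc 1 D).biUnion (fun d => T.filter (fun t => t + d ∈ T)) := by
    intro t ht
    by_cases hc : ∀ d ∈ Icc 1 D, t + d ∉ T
    · exact mem_union_left _ (mem_filter.2 ⟨ht, hc⟩)
    · push Not at hc
      obtain ⟨d, hd, hd2⟩ := hc
      exact mem_union_right _ (mem_biUnion.2 ⟨d, hd, mem_filter.2 ⟨ht, hd2⟩⟩)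
  have hMc : M.card ≤ (N - 1) / (D + 1) + 1 := by
    have hmaps : ∀ t ∈ M, (t - a - 1) / (D + 1) ∈ range ((N - 1) / (D + 1) + 1) := by
      intro t ht
      have h1 := mem_Ioc.1 (hT (mem_filter.1 ht).1)
      rw [mem_range, Nat.lt_succ_iff]
      exact Nat.div_le_div_right (by omega)
    have hinj : Set.InjOn (fun t => (t - a - 1) / (D + 1)) (M : Set ℕ) := by
      have aux : ∀ s ∈ M, ∀ t ∈ M, s < t → (s - a - 1) / (D + 1) = (t - a - 1) / (D + 1) →
          False := by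
        intro s hs t ht hlt he
        have h1 := mem_Ioc.1 (hT (mem_filter.1 hs).1)
        have h2 := mem_Ioc.1 (hT (mem_filter.1 ht).1)
        have h3 := (mem_filter.1 hs).2
        have e1 := Nat.div_add_mod (s - a - 1) (D + 1)
        have e2 := Nat.div_add_mod (t - a - 1) (D + 1)
        have m1 := Nat.mod_lt (s - a - 1) (Nat.succ_pos D)
        have m2 := Nat.mod_lt (t - a - 1) (Nat.succ_pos D)
        rw [he] at e1
        set Q := (D + 1) * ((t - a - 1) / (D + 1)) with hQ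
        have h4 : t - s ≤ D := by
          simp only [Nat.succ_eq_add_one] at m1 m2
          omega
        refine h3 (t - s) (mem_Icc.2 ⟨by omega, h4⟩) ?_
        have : s + (t - s) = t := by omega
        rw [this]
        exact (mem_filter.1 ht).1
      intro s hs t ht he
      rcases lt_trichotomy s t with hl | hl | hl
      · exact (aux s hs t ht hl he).elim
      · exact hl
      · exact (aux t ht s hs hl he.symm).elim
    calc M.card ≤ (range ((N - 1) / (D + 1) + 1)).card :=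
          card_le_card_of_injOn _ hmaps hinj
      _ = _ := card_range _
  calc T.card ≤ (M ∪ (Icc 1 D).biUnion (fun d => T.filter (fun t => t + d ∈ T))).card :=
        card_le_card hcov
    _ ≤ M.card + ((Icc 1 D).biUnion (fun d => T.filter (fun t => t + d ∈ T))).card :=
        card_union_le _ _
    _ ≤ ((N - 1) / (D + 1) + 1) + ∑ d ∈ Icc 1 D, (d - 1) := by
        apply add_le_add hMc
        refine card_biUnion_le.trans (sum_le_sum fun d hd => h d (mem_Icc.1 hd).1)

lemma sum_pred (D : ℕ) : (∑ d ∈ Icc 1 D, (d - 1)) * 2 = D * (D - 1) := by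
  induction D with
  | zero => simp
  | succ n ih =>
    rw [sum_Icc_succ_top (by omega), add_mul, ih]
    rcases n with _ | n
    · simp
    · simp only [Nat.add_sub_cancel]
      ring

lemma card_le_real (T : Finset ℕ) (a N : ℕ) (hT : T ⊆ Ioc a (a + N))
    (h : ∀ d, 1 ≤ d → (T.filter (fun t => t + d ∈ T)).card ≤ d - 1) :
    (T.card : ℝ) ≤ 3 / 2 * (N : ℝ) ^ (2 / 3 : ℝ) + 1 := by
  rcases Nat.eq_zero_or_pos N with hN | hN
  · subst hN
    have : T = ∅ := by
      rw [eq_empty_iff_forall_notMem]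
      intro t ht
      have := mem_Ioc.1 (hT ht)
      omega
    rw [this]
    simp
  have hNr : (0 : ℝ) < N := by exact_mod_cast hN
  set c : ℝ := (N : ℝ) ^ (1 / 3 : ℝ) with hc
  have hc0 : 0 < c := Real.rpow_pos_of_pos hNr _
  have hc2 : (N : ℝ) ^ (2 / 3 : ℝ) = c ^ 2 := by
    rw [hc, ← Real.rpow_natCast, ← Real.rpow_mul hNr.le]
    norm_num
  have hc3 : (N : ℝ) = c ^ 3 := by
    rw [hc, ← Real.rpow_natCast, ← Real.rpow_mul hNr.le]
    norm_num
  set D := ⌊c⌋₊ with hD
  have hD1 : (D : ℝ) ≤ c := Nat.floor_le hc0.le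
  have hD2 : c < D + 1 := Nat.lt_floor_add_one c
  have h1 := card_le_block T a N D hN hT h
  have h2 : (T.card : ℝ) ≤ ((N - 1) / (D + 1) : ℕ) + 1 + ((∑ d ∈ Icc 1 D, (d - 1) : ℕ) : ℝ) := by
    exact_mod_cast h1
  have h3 : (((N - 1) / (D + 1) : ℕ) : ℝ) ≤ c ^ 2 := by
    have e1 : (((N - 1) / (D + 1) : ℕ) : ℝ) ≤ ((N - 1 : ℕ) : ℝ) / ((D + 1 : ℕ) : ℝ) :=
      Nat.cast_div_le
    refine e1.trans ?_
    rw [div_le_iff₀ (by positivity)]
    have e2 : ((N - 1 : ℕ) : ℝ) ≤ N := by exact_mod_cast Nat.sub_le N 1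
    push_cast
    have e3 : c ^ 3 ≤ c ^ 2 * (D + 1) := by
      have : c ^ 2 * c ≤ c ^ 2 * (D + 1) := mul_le_mul_of_nonneg_left hD2.le (by positivity)
      nlinarith
    linarith
  have h4 : ((∑ d ∈ Icc 1 D, (d - 1) : ℕ) : ℝ) ≤ c ^ 2 / 2 := by
    have e1 := sum_pred D
    have e2 : ((∑ d ∈ Icc 1 D, (d - 1) : ℕ) : ℝ) * 2 = (D : ℝ) * ((D - 1 : ℕ) : ℝ) := by
      exact_mod_cast e1
    have e3 : ((D - 1 : ℕ) : ℝ) ≤ D := by exact_mod_cast Nat.sub_le D 1
    have e4 : (0 : ℝ) ≤ D := Nat.cast_nonneg D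
    nlinarith
  rw [hc2]
  linarith

end Run7.h202.Wil
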