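import Pool.Agent.Run7.h202.Wil.Key

set_option autoImplicit false

/-! # Wilson primes of two orders, and averages over the orders -/

namespace Run7.h202.Wil

open Finset Polynomial
open scoped Nat

/-- `p` is a Wilson prime of order `n` -/
def IsW (n p : ℕ) : Prop :=
  p.Prime ∧ 1 ≤ n ∧ n ≤ p ∧ (p : ℤ) ^ 2 ∣ ((n - 1)! : ℕ) * ((p - n)! : ℕ) - (-1) ^ n

lemma IsW.A {n p : ℕ} (h : IsW n p) : (p : ℤ) ^ 2 ∣ A p n - 1 := by
  have h1 := Dvd.dvd.mul_left h.2.2.2 ((-1 : ℤ) ^ n)
  refine h1.trans (dvd_of_eq ?_)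
  have e1 : ((-1 : ℤ) ^ n) * (-1) ^ n = 1 := by rw [← mul_pow]; simp
  unfold Wil.A
  linear_combination -e1

/-- the derivative of `x (x+1) … (x+L-1)` at `n` as a natural number -/
noncomputable def dE (n L : ℕ) : ℕ := (derivative (ascPochhammer ℕ L)).eval n

lemma dE_cast (n L : ℕ) :
    ((dE n L : ℕ) : ℤ) = (derivative (ascPochhammer ℤ L)).eval (n : ℤ) := by
  have hmap : derivative (ascPochhammer ℤ L) =
      (derivative (ascPochhammer ℕ L)).map (Nat.castRingHom ℤ) := by
    rw [← derivative_map, ascPochhammer_map]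
  have e : ((n : ℕ) : ℤ) = (Nat.castRingHom ℤ) n := by simp
  rw [hmap, e, eval_map, eval₂_at_apply]
  rfl

lemma dE_succ (n L : ℕ) : dE n (L + 1) = dE n L * (n + L) + (ascPochhammer ℕ L).eval n := by
  unfold dE
  rw [ascPochhammer_succ_right, derivative_mul]
  simp

lemma asc_le (n L M : ℕ) (h : n + L ≤ M + 1) : (ascPochhammer ℕ L).eval n ≤ M ^ L := by
  induction L with
  | zero => simp
  | succ L ih =>
    rw [ascPochhammer_succ_right, eval_mul, pow_succ]
    apply Nat.mul_le_mul (ih (by omega))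
    simp
    omega

lemma dE_le (n L M : ℕ) (h : n + L ≤ M + 1) : dE n L ≤ L * M ^ (L - 1) := by
  induction L with
  | zero => simp [dE]
  | succ L ih =>
    rw [dE_succ]
    have h1 := ih (by omega)
    have h2 := asc_le n L M (by omega)
    rcases L with _ | L
    · simp [dE]
    · simp only [Nat.add_sub_cancel] at h1 ⊢
      have h3 : dE n (L + 1) * (n + (L + 1)) ≤ ((L + 1) * M ^ L) * M :=
        Nat.mul_le_mul h1 (by omega)
      have h4 : ((L + 1) * M ^ L) * M = (L + 1) * M ^ (L + 1) := by ring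
      rw [h4] at h3
      calc _ ≤ (L + 1) * M ^ (L + 1) + M ^ (L + 1) := add_le_add h3 h2
        _ = (L + 1 + 1) * M ^ (L + 1) := by ring

lemma dE_pos (n L : ℕ) (hn : 1 ≤ n) : 0 < dE n (L + 1) := by
  rw [dE_succ]
  have : 0 < (ascPochhammer ℕ L).eval n := ascPochhammer_pos L n (by omega)
  omega

lemma dvd_dE {n L p : ℕ} (h1 : IsW n p) (h2 : IsW (n + L) p) : p ∣ dE n L := by
  have h := key h1.1 h1.2.1 h2.2.2.1 (by
    have := dvd_sub h2.A h1.A
    simpa using this)
  rw [← dE_cast] at h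
  exact_mod_cast h

/-- finite sets of primes of two orders -/
lemma card_pair {n m : ℕ} (hnm : n < m) (S : Finset ℕ) (hS : ∀ p ∈ S, IsW n p ∧ IsW m p) :
    S.card ≤ m - n - 1 := by
  rcases S.eq_empty_or_nonempty with hS0 | ⟨q, hq⟩
  · simp [hS0]
  have hn : 1 ≤ n := (hS q hq).1.2.1
  obtain ⟨L, rfl⟩ : ∃ L, m = n + (L + 1) := ⟨m - n - 1, by omega⟩
  have hdvd : ∏ p ∈ S, p ∣ dE n (L + 1) := by
    apply Finset.prod_primes_dvd
    · intro p hp
      exact (hS p hp).1.1.prime
    · intro p hp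
      exact dvd_dE (hS p hp).1 (hS p hp).2
  have hle := Nat.le_of_dvd (dE_pos n L hn) hdvd
  have h1 : (n + (L + 1)) ^ S.card ≤ ∏ p ∈ S, p := by
    rw [← prod_const]
    exact prod_le_prod' fun p hp => (hS p hp).2.2.2.1
  have h2 := dE_le n (L + 1) (n + L) (by omega)
  rw [Nat.add_sub_cancel] at h2
  have h3 : (L + 1) * (n + L) ^ L < (n + (L + 1)) ^ (L + 1) := by
    rw [pow_succ, mul_comm]
    have e1 : (n + L) ^ L ≤ (n + (L + 1)) ^ L := Nat.pow_le_pow_left (by omega) L
    have e2 : 0 < (n + (L + 1)) ^ L := by positivity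
    calc (n + L) ^ L * (L + 1) ≤ (n + (L + 1)) ^ L * (L + 1) := Nat.mul_le_mul_right _ e1
      _ < (n + (L + 1)) ^ L * (n + (L + 1)) := by
        apply Nat.mul_lt_mul_of_pos_left _ e2
        omega
  have h4 : (n + (L + 1)) ^ S.card < (n + (L + 1)) ^ (L + 1) := by omega
  have h5 := (Nat.pow_lt_pow_iff_right (by omega : 1 < n + (L + 1))).1 h4
  omega

/-- **every value is rare**: for a prime `p` and an integer `w`, a set of orders in an interval of
length `N` at which `(-1)^n (n-1)! (p-n)!` is `w` modulo `p ^ 2` -/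
theorem card_value {p : ℕ} (hp : p.Prime) (w : ℤ) (a N : ℕ) (T : Finset ℕ)
    (hT : T ⊆ Ioc a (a + N)) (h : ∀ n ∈ T, 1 ≤ n ∧ n ≤ p ∧ (p : ℤ) ^ 2 ∣ A p n - w) :
    (T.card : ℝ) ≤ 3 / 2 * (N : ℝ) ^ (2 / 3 : ℝ) + 1 := by
  apply card_le_real T a N hT
  intro d hd
  rcases Nat.lt_or_ge d p with hdp | hdp
  · apply card_gap hp hd hdp
    · intro t ht
      have := h t (mem_filter.1 ht).1
      exact ⟨this.1, this.2.1⟩
    · intro t ht
      obtain ⟨h1, h2⟩ := mem_filter.1 ht
      have a1 := h t h1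
      have a2 := h (t + d) h2
      apply key hp a1.1 a2.2.1
      have := dvd_sub a2.2.2 a1.2.2
      simpa using this
  · have : T.filter (fun t => t + d ∈ T) = ∅ := by
      rw [filter_eq_empty_iff]
      intro t ht ht2
      have a1 := h t ht
      have a2 := h (t + d) ht2
      omega
    rw [this]
    simp

open scoped Classical in
/-- the number of Wilson primes `p ≤ x` of order `n` -/
noncomputable def W (n x : ℕ) : ℕ := ((Icc 1 x).filter (fun p => IsW n p)).card

/-- the number of primes `p ≤ x` -/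
def pr (x : ℕ) : ℕ := ((Icc 1 x).filter Nat.Prime).card

open scoped Classical in
/-- the number of the orders `n ≤ N` of `p` -/
noncomputable def r (N p : ℕ) : ℕ := ((Icc 1 N).filter (fun n => IsW n p)).card

lemma sum_W (N x : ℕ) : ∑ n ∈ Icc 1 N, W n x = ∑ p ∈ (Icc 1 x).filter Nat.Prime, r N p := by
  classical
  unfold W r
  simp only [card_filter]
  rw [sum_comm, sum_filter]
  apply sum_congr rfl
  intro p _
  by_cases hp : p.Prime
  · rw [if_pos hp]
  · rw [if_neg hp]
    apply sum_eq_zero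
    intro n _
    rw [if_neg]
    exact fun h => hp h.1

open scoped Classical in
/-- pairs of orders -/
noncomputable def pairs (N p : ℕ) : Finset (ℕ × ℕ) :=
  ((Icc 1 N) ×ˢ (Icc 1 N)).filter (fun q => q.1 < q.2 ∧ IsW q.1 p ∧ IsW q.2 p)

lemma r_sq (N p : ℕ) : r N p ^ 2 = r N p + 2 * (pairs N p).card := by
  classical
  set T := (Icc 1 N).filter (fun n => IsW n p) with hT
  have h1 : r N p = T.card := rfl
  have h2 : pairs N p = (T ×ˢ T).filter (fun q => q.1 < q.2) := by
    unfold pairs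
    ext q
    simp only [mem_filter, mem_product, hT]
    tauto
  have h3 : (T ×ˢ T).card = ((T ×ˢ T).filter (fun q => q.1 < q.2)).card +
      ((T ×ˢ T).filter (fun q => q.2 < q.1)).card + T.card := by
    have e1 : T.card = ((T ×ˢ T).filter (fun q => q.1 = q.2)).card := by
      rw [← diag_eq_filter]
      simp
    rw [e1, ← card_union_of_disjoint, ← card_union_of_disjoint]
    · congr 1
      ext q
      simp only [mem_union, mem_filter]
      constructor
      · intro h
        rcases lt_trichotomy q.1 q.2 with hl | hl | hl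
        · exact Or.inl (Or.inl ⟨h, hl⟩)
        · exact Or.inr ⟨h, hl⟩
        · exact Or.inl (Or.inr ⟨h, hl⟩)
      · tauto
    · rw [disjoint_left]
      intro q hq1 hq2
      simp only [mem_union, mem_filter] at hq1 hq2
      omega
    · rw [disjoint_left]
      intro q hq1 hq2
      simp only [mem_filter] at hq1 hq2
      omega
  have h4 : ((T ×ˢ T).filter (fun q => q.2 < q.1)).card =
      ((T ×ˢ T).filter (fun q => q.1 < q.2)).card := by
    apply card_bij (fun q _ => (q.2, q.1))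
    · intro q hq
      simp only [mem_filter, mem_product] at hq ⊢
      tauto
    · intro q _ q' _ h
      simp only [Prod.mk.injEq] at h
      ext
      · exact h.2
      · exact h.1
    · intro q hq
      refine ⟨(q.2, q.1), ?_, rfl⟩
      simp only [mem_filter, mem_product] at hq ⊢
      tauto
  rw [h1, h2, sq, ← card_product, h3, h4]
  ring

lemma r_le (N p : ℕ) : r N p ≤ 1 + (pairs N p).card := by
  have h := r_sq N p
  rcases Nat.eq_zero_or_pos (r N p) with h0 | h0
  · omega
  · have : 2 * r N p ≤ 1 + r N p ^ 2 := by nlinarith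
    have h3 : 3 * r N p ≤ 2 + r N p ^ 2 := by
      obtain ⟨k, hk⟩ : ∃ k, r N p = k + 1 := ⟨r N p - 1, by omega⟩
      rw [hk]
      rcases k with _ | k
      · norm_num
      · nlinarith
    omega

lemma sum_choose (N : ℕ) :
    ∑ m ∈ Icc 1 N, ∑ n ∈ Icc 1 N, (if n < m then m - n - 1 else 0) = N.choose 3 := by
  have h1 : ∀ m ∈ Icc 1 N, ∑ n ∈ Icc 1 N, (if n < m then m - n - 1 else 0) = (m - 1).choose 2 := by
    intro m hm
    have hm1 := (mem_Icc.1 hm)
    rw [← sum_filter]
    have e1 : (Icc 1 N).filter (fun n => n < m) = Ico 1 m := by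
      ext n
      simp only [mem_filter, mem_Icc, mem_Ico]
      omega
    rw [e1]
    obtain ⟨k, rfl⟩ : ∃ k, m = k + 1 := ⟨m - 1, by omega⟩
    rw [Nat.add_sub_cancel, sum_Ico_eq_sum_range, Nat.add_sub_cancel]
    have e2 : ∑ i ∈ range k, (k + 1 - (1 + i) - 1) = ∑ i ∈ range k, i := by
      rw [← sum_range_reflect]
      apply sum_congr rfl
      intro i hi
      rw [mem_range] at hi
      omega
    rw [e2, sum_range_id, Nat.choose_two_right]
  rw [sum_congr rfl h1]
  clear h1
  induction N with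
  | zero => simp
  | succ n ih =>
    rw [sum_Icc_succ_top (by omega), ih, Nat.add_sub_cancel, add_comm, ← Nat.choose_succ_succ]

lemma sum_pairs (N x : ℕ) :
    ∑ p ∈ (Icc 1 x).filter Nat.Prime, (pairs N p).card ≤ N.choose 3 := by
  classical
  have h1 : ∑ p ∈ (Icc 1 x).filter Nat.Prime, (pairs N p).card =
      ∑ q ∈ (Icc 1 N) ×ˢ (Icc 1 N), (if q.1 < q.2 then
        (((Icc 1 x).filter Nat.Prime).filter (fun p => IsW q.1 p ∧ IsW q.2 p)).card else 0) := by
    unfold pairs
    simp only [card_filter]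
    rw [sum_comm]
    apply sum_congr rfl
    intro q _
    by_cases hq : q.1 < q.2
    · simp [hq]
    · simp [hq]
  rw [h1, ← sum_choose, sum_comm, ← sum_product']
  apply sum_le_sum
  intro q _
  by_cases hq : q.1 < q.2
  · rw [if_pos hq, if_pos hq]
    apply card_pair hq
    intro p hp
    exact (mem_filter.1 hp).2
  · rw [if_neg hq, if_neg hq]

/-- **the sum over the orders**, first bound -/
theorem sum_W_le (N x : ℕ) : ∑ n ∈ Icc 1 N, W n x ≤ pr x + N.choose 3 := by
  rw [sum_W]
  calc ∑ p ∈ (Icc 1 x).filter Nat.Prime, r N p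
      ≤ ∑ p ∈ (Icc 1 x).filter Nat.Prime, (1 + (pairs N p).card) :=
        sum_le_sum fun p _ => r_le N p
    _ = pr x + ∑ p ∈ (Icc 1 x).filter Nat.Prime, (pairs N p).card := by
        rw [sum_add_distrib]
        simp [pr]
    _ ≤ _ := Nat.add_le_add_left (sum_pairs N x) _

/-- second bound -/
theorem sum_W_sq (N x : ℕ) :
    (∑ n ∈ Icc 1 N, W n x) ^ 2 ≤ pr x * (∑ n ∈ Icc 1 N, W n x + 2 * N.choose 3) := by
  rw [sum_W]
  calc (∑ p ∈ (Icc 1 x).filter Nat.Prime, r N p) ^ 2
      ≤ ((Icc 1 x).filter Nat.Prime).card * ∑ p ∈ (Icc 1 x).filter Nat.Prime, r N p ^ 2 :=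
        sq_sum_le_card_mul_sum_sq
    _ = pr x * (∑ p ∈ (Icc 1 x).filter Nat.Prime, r N p +
        2 * ∑ p ∈ (Icc 1 x).filter Nat.Prime, (pairs N p).card) := by
        have e : ∑ p ∈ (Icc 1 x).filter Nat.Prime, r N p ^ 2 =
            ∑ p ∈ (Icc 1 x).filter Nat.Prime, r N p +
              2 * ∑ p ∈ (Icc 1 x).filter Nat.Prime, (pairs N p).card := by
          rw [mul_sum, ← sum_add_distrib]
          exact sum_congr rfl fun p _ => r_sq N p
        rw [e]
        rfl
    _ ≤ _ := by
        apply Nat.mul_le_mul_left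
        have := sum_pairs N x
        omega

/-- third bound -/
theorem sum_W_real (N x : ℕ) :
    ((∑ n ∈ Icc 1 N, W n x : ℕ) : ℝ) ≤ pr x * (3 / 2 * (N : ℝ) ^ (2 / 3 : ℝ) + 1) := by
  classical
  rw [sum_W]
  push_cast
  have h : ∀ p ∈ (Icc 1 x).filter Nat.Prime, (r N p : ℝ) ≤ 3 / 2 * (N : ℝ) ^ (2 / 3 : ℝ) + 1 := by
    intro p hp
    refine card_value (mem_filter.1 hp).2 1 0 N _ ?_ ?_
    · intro n hn
      have := mem_Icc.1 (mem_filter.1 hn).1
      rw [mem_Ioc]
      omega
    · intro n hn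
      have := (mem_filter.1 hn).2
      exact ⟨this.2.1, this.2.2.1, this.A⟩
  refine (sum_le_sum h).trans (le_of_eq ?_)
  rw [sum_const, nsmul_eq_mul]
  rfl

end Run7.h202.Wil
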