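import Pool.Agent.Helper92K9.WI.Loc
import Pool.Agent.Run7.h202.Wil.Pair

set_option autoImplicit false

/-! # Wilson primes of the progressions with a given difference -/

namespace Run7.h202.Wil

open Finset Pool.Agent.Helper92K9.WI
open scoped Nat

lemma prod_neg (m : ℕ) : ∏ k ∈ range m, ((k : ℤ) - m) = (-1) ^ m * (m ! : ℤ) := by
  rw [← prod_range_reflect]
  have h1 : ∀ k ∈ range m, (((m - 1 - k : ℕ) : ℤ) - m) = -1 * ((k + 1 : ℕ) : ℤ) := by
    intro k hk
    rw [mem_range] at hk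
    omega
  rw [prod_congr rfl h1, prod_mul_distrib, prod_const, card_range]
  congr 1
  rw [← prod_range_add_one_eq_factorial]
  push_cast
  rfl

lemma prod_pos' (m p : ℕ) : ∏ k ∈ Ico (m + 1) p, ((k : ℤ) - m) = ((p - (m + 1)) ! : ℕ) := by
  rw [prod_Ico_eq_prod_range, ← prod_range_add_one_eq_factorial]
  push_cast
  apply prod_congr rfl
  intro k _
  push_cast
  ring

section field
variable {p : ℕ} [hp : Fact p.Prime]

lemma deriv_b {b a : ℤ} (ha : (a : ZMod p) ≠ 0) (hp2 : p ≠ 2) :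
    ∑ k ∈ FF b a p, ∏ j ∈ (FF b a p).erase k, ((b : ZMod p) + a * j) = 0 := by
  have h1 : ∀ k ∈ FF b a p, ∏ j ∈ (FF b a p).erase k, ((b : ZMod p) + a * j) =
      (fun m : ZMod p => - m⁻¹) ((b : ZMod p) + a * k) := by
    intro k hk
    have hne : (b : ZMod p) + a * k ≠ 0 := by
      intro h
      have hk2 := (mem_filter.1 hk).2
      apply hk2
      rw [← ZMod.intCast_zmod_eq_zero_iff_dvd]
      push_cast
      exact h
    have h2 := mul_prod_erase (FF b a p) (fun j : ℕ => (b : ZMod p) + a * j) hk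
    rw [prod_eq_neg_one ha] at h2
    simp only
    field_simp
    linear_combination h2
  rw [sum_congr rfl h1]
  have h5 := prod_FF (M := Multiplicative (ZMod p)) (b := b) ha
    (fun m => Multiplicative.ofAdd (- m⁻¹))
  have h6 : ∑ k ∈ FF b a p, (fun m : ZMod p => - m⁻¹) ((b : ZMod p) + a * k) =
      ∑ m ∈ (univ : Finset (ZMod p)).erase 0, (- m⁻¹) := by
    have := congrArg Multiplicative.toAdd h5
    simpa [toAdd_prod] using this
  rw [h6, sum_neg_distrib, sum_inv_zero hp2, neg_zero]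

end field

lemma FF_shift_b (b a : ℤ) (p : ℕ) (t : ℤ) : FF (b + p * t) a p = FF b a p := by
  unfold FF
  apply filter_congr
  intro k _
  have : b + p * t + a * k = b + a * k + p * t := by ring
  rw [this, Int.dvd_add_left (Dvd.intro _ rfl)]

/-- the product depends on `b` modulo `p` only -/
lemma wprod_shift {p : ℕ} (hp : p.Prime) (hp2 : p ≠ 2) (b a t : ℤ) (ha : ¬ (p : ℤ) ∣ a) :
    (p : ℤ) ^ 2 ∣ wprod (b + p * t) a p - wprod b a p := by
  have : Fact p.Prime := ⟨hp⟩
  have ha' : (a : ZMod p) ≠ 0 := fun h => ha ((ZMod.intCast_zmod_eq_zero_iff_dvd a p).1 h)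
  have h1 := prod_expand (FF b a p) (fun k : ℕ => b + a * (k : ℤ)) (fun _ : ℕ => (1 : ℤ)) p t
  have h2 : wprod (b + p * t) a p = ∏ k ∈ FF b a p, (b + a * (k : ℤ) + p * t * 1) := by
    rw [wprod_eq, FF_shift_b]
    apply prod_congr rfl
    intro k _
    ring
  have h3 : (p : ℤ) ∣ ∑ k ∈ FF b a p, (1 : ℤ) * ∏ j ∈ (FF b a p).erase k, (b + a * (j : ℤ)) := by
    rw [← ZMod.intCast_zmod_eq_zero_iff_dvd]
    push_cast
    simp only [one_mul]
    exact deriv_b ha' hp2
  obtain ⟨c, hc⟩ := h3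
  rw [← h2, hc] at h1
  have h4 := dvd_add h1 (Dvd.intro (t * c) rfl : (p : ℤ) ^ 2 ∣ (p : ℤ) ^ 2 * (t * c))
  refine h4.trans (dvd_of_eq ?_)
  rw [wprod_eq b a p]
  ring

/-- the value at `b = - a (n - 1)` -/
lemma wprod_order {p n : ℕ} (hp : p.Prime) (hn : 1 ≤ n) (hnp : n ≤ p) (a : ℤ)
    (ha : ¬ (p : ℤ) ∣ a) :
    wprod (-(a * ((n - 1 : ℕ) : ℤ))) a p = - (a ^ (p - 1) * A p n) := by
  obtain ⟨m, rfl⟩ : ∃ m, n = m + 1 := ⟨n - 1, by omega⟩
  rw [Nat.add_sub_cancel]
  have hF : (range p).filter (fun k : ℕ => ¬ (p : ℤ) ∣ -(a * (m : ℤ)) + a * k) =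
      range m ∪ Ico (m + 1) p := by
    ext k
    rw [mem_filter, mem_range, mem_union, mem_range, mem_Ico]
    constructor
    · rintro ⟨h1, h2⟩
      by_contra h3
      apply h2
      have : k = m := by omega
      rw [this]
      ring_nf
      exact dvd_zero _
    · intro h
      refine ⟨by omega, fun hd => ?_⟩
      have e : -(a * (m : ℤ)) + a * k = a * ((k : ℤ) - m) := by ring
      rw [e] at hd
      have hpr : Prime (p : ℤ) := Nat.prime_iff_prime_int.1 hp
      rcases hpr.dvd_or_dvd hd with h5 | h5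
      · exact ha h5
      · have h4 : (k : ℤ) - m = 0 := by
          apply Int.eq_zero_of_abs_lt_dvd h5
          rw [abs_lt]
          constructor <;> omega
        omega
  have hdis : Disjoint (range m) (Ico (m + 1) p) := by
    rw [disjoint_left]
    intro k h1 h2
    rw [mem_range] at h1
    rw [mem_Ico] at h2
    omega
  unfold wprod
  rw [hF, prod_union hdis]
  have e1 : ∏ k ∈ range m, (-(a * (m : ℤ)) + a * (k : ℤ)) = a ^ m * ((-1) ^ m * (m ! : ℤ)) := by
    rw [← prod_neg]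
    have : ∀ k ∈ range m, (-(a * (m : ℤ)) + a * (k : ℤ)) = a * ((k : ℤ) - m) := by
      intro k _
      ring
    rw [prod_congr rfl this, prod_mul_distrib, prod_const, card_range]
  have e2 : ∏ k ∈ Ico (m + 1) p, (-(a * (m : ℤ)) + a * (k : ℤ)) =
      a ^ (p - (m + 1)) * ((p - (m + 1)) ! : ℕ) := by
    rw [← prod_pos']
    have : ∀ k ∈ Ico (m + 1) p, (-(a * (m : ℤ)) + a * (k : ℤ)) = a * ((k : ℤ) - m) := by
      intro k _
      ring
    rw [prod_congr rfl this, prod_mul_distrib, prod_const, Nat.card_Ico]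
  rw [e1, e2]
  unfold A
  rw [Nat.add_sub_cancel]
  have e3 : p - 1 = m + (p - (m + 1)) := by omega
  rw [e3, pow_add, pow_succ]
  ring

open scoped Classical in
/-- **every complete residue system contains few `b`** -/
theorem card_b {p : ℕ} (hp : p.Prime) (hp2 : p ≠ 2) (a : ℤ) (ha : ¬ (p : ℤ) ∣ a)
    (c : ℤ) :
    (((Ioc c (c + p)).filter (fun b => IsWilson b a p)).card : ℝ) ≤
      3 / 2 * (p : ℝ) ^ (2 / 3 : ℝ) + 1 := by
  have hpz : (p : ℤ) ≠ 0 := by exact_mod_cast hp.ne_zero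
  have hpr : Prime (p : ℤ) := Nat.prime_iff_prime_int.1 hp
  -- the inverse of `a ^ (p - 1)`
  have hcop : IsCoprime (a ^ (p - 1)) ((p : ℤ) ^ 2) := by
    apply IsCoprime.pow
    exact (hpr.coprime_iff_not_dvd.2 ha).symm
  obtain ⟨w, v, hwv⟩ := hcop
  -- the inverse of `a` modulo `p`
  obtain ⟨a', v', hav⟩ : ∃ a' v', a' * a + v' * (p : ℤ) = 1 := (hpr.coprime_iff_not_dvd.2 ha).symm
  -- the order
  set ord : ℤ → ℕ := fun b => ((-(a' * b)) % (p : ℤ)).toNat + 1 with hord
  have hord1 : ∀ b, 1 ≤ ord b ∧ ord b ≤ p := by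
    intro b
    have h1 := Int.emod_nonneg (-(a' * b)) hpz
    have h2 := Int.emod_lt_of_pos (-(a' * b)) (by exact_mod_cast hp.pos : (0 : ℤ) < p)
    simp only [hord]
    omega
  have hord2 : ∀ b, (p : ℤ) ∣ b + a * (((ord b - 1 : ℕ)) : ℤ) := by
    intro b
    have h1 := Int.emod_nonneg (-(a' * b)) hpz
    have e1 : (((ord b - 1 : ℕ)) : ℤ) = (-(a' * b)) % (p : ℤ) := by
      simp only [hord, Nat.add_sub_cancel]
      exact Int.toNat_of_nonneg h1
    have e2 := Int.emod_add_mul_ediv (-(a' * b)) (p : ℤ)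
    rw [e1]
    refine ⟨v' * b - a * ((-(a' * b)) / (p : ℤ)), ?_⟩
    have e3 : (-(a' * b)) % (p : ℤ) = -(a' * b) - p * ((-(a' * b)) / (p : ℤ)) := by linarith
    rw [e3]
    linear_combination (-b) * hav
  have hW : ∀ b, IsWilson b a p → (p : ℤ) ^ 2 ∣ A p (ord b) - w := by
    intro b hb
    obtain ⟨t, ht⟩ := hord2 b
    have e1 : b = -(a * (((ord b - 1 : ℕ)) : ℤ)) + p * t := by linarith
    have h1 := wprod_shift hp hp2 (-(a * (((ord b - 1 : ℕ)) : ℤ))) a t ha
    rw [← e1, wprod_order hp (hord1 b).1 (hord1 b).2 a ha] at h1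
    have h2 := dvd_sub hb.2.2 h1
    have e2 : wprod b a p + 1 - (wprod b a p - -(a ^ (p - 1) * A p (ord b))) =
        1 - a ^ (p - 1) * A p (ord b) := by ring
    rw [e2] at h2
    obtain ⟨s, hs⟩ := h2
    refine ⟨v * A p (ord b) - w * s, ?_⟩
    linear_combination (A p (ord b)) * (-hwv) - w * hs
  set T := ((Ioc c (c + p)).filter (fun b => IsWilson b a p)) with hT
  have hinj : Set.InjOn ord (T : Set ℤ) := by
    intro b hb b' hb' he
    have m1 := mem_Ioc.1 (mem_filter.1 hb).1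
    have m2 := mem_Ioc.1 (mem_filter.1 hb').1
    have h1 := hord2 b
    have h2 := hord2 b'
    rw [← he] at h2
    have h3 := dvd_sub h1 h2
    have e : b + a * (((ord b - 1 : ℕ)) : ℤ) - (b' + a * (((ord b - 1 : ℕ)) : ℤ)) = b - b' := by
      ring
    rw [e] at h3
    have h4 : b - b' = 0 := by
      apply Int.eq_zero_of_abs_lt_dvd h3
      rw [abs_lt]
      constructor <;> omega
    omega
  rw [← card_image_of_injOn hinj]
  refine card_value hp w 0 p _ ?_ ?_
  · intro n hn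
    obtain ⟨b, _, rfl⟩ := mem_image.1 hn
    have := hord1 b
    rw [mem_Ioc]
    omega
  · intro n hn
    obtain ⟨b, hb, rfl⟩ := mem_image.1 hn
    exact ⟨(hord1 b).1, (hord1 b).2, hW b (mem_filter.1 hb).2⟩

open scoped Classical in
lemma card_interval {p : ℕ} (hp : p.Prime) (hp2 : p ≠ 2) (a : ℤ) (ha : ¬ (p : ℤ) ∣ a)
    (q : ℕ) (c : ℤ) :
    (((Ioc c (c + (p * q : ℕ))).filter (fun b => IsWilson b a p)).card : ℝ) ≤
      q * (3 / 2 * (p : ℝ) ^ (2 / 3 : ℝ) + 1) := by
  induction q with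
  | zero => simp
  | succ q ih =>
    have h1 := card_b hp hp2 a ha (c + (p * q : ℕ))
    have hsub : (Ioc c (c + (p * (q + 1) : ℕ))).filter (fun b => IsWilson b a p) ⊆
        (Ioc c (c + (p * q : ℕ))).filter (fun b => IsWilson b a p) ∪
        (Ioc (c + (p * q : ℕ)) (c + (p * q : ℕ) + p)).filter (fun b => IsWilson b a p) := by
      intro b hb
      rw [mem_filter, mem_Ioc] at hb
      rw [mem_union, mem_filter, mem_filter, mem_Ioc, mem_Ioc]
      have e : ((p * (q + 1) : ℕ) : ℤ) = (p * q : ℕ) + p := by push_cast; ring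
      rw [e] at hb
      rcases le_or_gt b (c + (p * q : ℕ)) with h | h
      · exact Or.inl ⟨⟨hb.1.1, h⟩, hb.2⟩
      · exact Or.inr ⟨⟨h, by linarith [hb.1.2]⟩, hb.2⟩
    have h2 := (card_le_card hsub).trans (card_union_le _ _)
    have h3 : (((Ioc c (c + (p * (q + 1) : ℕ))).filter (fun b => IsWilson b a p)).card : ℝ) ≤
        (((Ioc c (c + (p * q : ℕ))).filter (fun b => IsWilson b a p)).card : ℝ) +
        (((Ioc (c + (p * q : ℕ)) (c + (p * q : ℕ) + p)).filter
          (fun b => IsWilson b a p)).card : ℝ) := by exact_mod_cast h2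
    push_cast at h3 ih h1 ⊢
    linarith

end Run7.h202.Wil
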