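import Pool.Agent.Run7.h202.Wil.Prog

set_option autoImplicit false

/-! # Typical orders; lower densities; averages over the progressions of a given difference -/

namespace Run7.h202.Wil

open Finset Filter Pool.Agent.Helper92K9.WI
open scoped Nat

lemma pr_eq (x : ℕ) : pr x = Nat.primeCounting x := by
  unfold pr Nat.primeCounting Nat.primeCounting'
  rw [Nat.count_eq_card_filter_range]
  congr 1
  ext p
  simp only [mem_filter, mem_Icc, mem_range]
  constructor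
  · rintro ⟨h1, h2⟩
    exact ⟨by omega, h2⟩
  · rintro ⟨h1, h2⟩
    exact ⟨⟨h2.one_lt.le, by omega⟩, h2⟩

lemma pr_le (x : ℕ) : pr x ≤ x := by
  unfold pr
  refine (card_filter_le _ _).trans ?_
  simp

lemma W_mono (n : ℕ) {x y : ℕ} (h : x ≤ y) : W n x ≤ W n y := by
  classical
  unfold W
  exact card_le_card (filter_subset_filter _ (Icc_subset_Icc le_rfl h))

lemma sum_inv_sq' (M : ℕ) : ∑ j ∈ Icc 1 (M + 1), (1 : ℝ) / (j : ℝ) ^ 2 ≤ 2 - 1 / (M + 1) := by
  induction M with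
  | zero => norm_num
  | succ n ih =>
    rw [sum_Icc_succ_top (by omega)]
    have h : (1 : ℝ) / ((n + 1 + 1 : ℕ) : ℝ) ^ 2 ≤ 1 / (n + 1) - 1 / (((n + 1 : ℕ) : ℝ) + 1) := by
      push_cast
      rw [div_sub_div _ _ (by positivity) (by positivity), div_le_div_iff₀ (by positivity)
        (by positivity)]
      ring_nf
      nlinarith [Nat.cast_nonneg (α := ℝ) n]
    linarith

lemma sum_inv_sq (J : Finset ℕ) (hJ : ∀ j ∈ J, 1 ≤ j) : ∑ j ∈ J, (1 : ℝ) / (j : ℝ) ^ 2 ≤ 2 := by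
  have h1 : J ⊆ Icc 1 (J.sup id + 1) := by
    intro j hj
    rw [mem_Icc]
    exact ⟨hJ j hj, (Finset.le_sup (f := id) hj).trans (by omega)⟩
  have h2 := sum_le_sum_of_subset_of_nonneg h1 (f := fun j : ℕ => (1 : ℝ) / (j : ℝ) ^ 2)
    (fun _ _ _ => by positivity)
  have h3 := sum_inv_sq' (J.sup id)
  have h4 : (0 : ℝ) ≤ 1 / ((J.sup id : ℕ) + 1) := by positivity
  linarith

/-- the bound for the mean over the orders `n ≤ N` -/
noncomputable def B (N x : ℕ) : ℝ :=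
  min (5 / 2 * x / (N : ℝ) ^ (1 / 3 : ℝ)) ((x + (N : ℝ) ^ 3) / N)

lemma sum_le_B {N : ℕ} (hN : 1 ≤ N) (x : ℕ) : ((∑ n ∈ Icc 1 N, W n x : ℕ) : ℝ) ≤ N * B N x := by
  have hNr : (1 : ℝ) ≤ N := by exact_mod_cast hN
  have hN0 : (0 : ℝ) < N := by linarith
  have hx : (pr x : ℝ) ≤ x := by exact_mod_cast pr_le x
  unfold B
  rw [mul_min_of_nonneg _ _ hN0.le]
  refine le_min ?_ ?_
  · refine (sum_W_real N x).trans ?_
    have h1 : (1 : ℝ) ≤ (N : ℝ) ^ (2 / 3 : ℝ) := Real.one_le_rpow hNr (by norm_num)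
    have h2 : (N : ℝ) * (5 / 2 * x / (N : ℝ) ^ (1 / 3 : ℝ)) = 5 / 2 * x * (N : ℝ) ^ (2 / 3 : ℝ) := by
      have e : (N : ℝ) = (N : ℝ) ^ (2 / 3 : ℝ) * (N : ℝ) ^ (1 / 3 : ℝ) := by
        rw [← Real.rpow_add hN0]
        norm_num
      have h3 : (0 : ℝ) < (N : ℝ) ^ (1 / 3 : ℝ) := Real.rpow_pos_of_pos hN0 _
      rw [mul_div_assoc', div_eq_iff h3.ne']
      linear_combination (5 / 2 * (x : ℝ)) * e
    rw [h2]
    calc (pr x : ℝ) * (3 / 2 * (N : ℝ) ^ (2 / 3 : ℝ) + 1)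
        ≤ x * (3 / 2 * (N : ℝ) ^ (2 / 3 : ℝ) + (N : ℝ) ^ (2 / 3 : ℝ)) := by gcongr
      _ = _ := by ring
  · have h1 : ((∑ n ∈ Icc 1 N, W n x : ℕ) : ℝ) ≤ (pr x : ℝ) + (N.choose 3 : ℕ) := by
      exact_mod_cast sum_W_le N x
    have h2 : ((N.choose 3 : ℕ) : ℝ) ≤ (N : ℝ) ^ 3 := by
      exact_mod_cast Nat.choose_le_pow N 3
    have h3 : (N : ℝ) * ((x + (N : ℝ) ^ 3) / N) = x + (N : ℝ) ^ 3 := by field_simp
    rw [h3]
    linarith

open scoped Classical in
lemma card_bad {N : ℕ} (hN : 1 ≤ N) (j : ℕ) (hj : 1 ≤ j) {C : ℝ} (hC : 0 < C) :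
    (((Icc 1 N).filter (fun n => C * j ^ 2 * B N (2 ^ j) < W n (2 ^ j))).card : ℝ) ≤
      N / C * (1 / (j : ℝ) ^ 2) := by
  have hN0 : (0 : ℝ) < N := by exact_mod_cast hN
  have hj0 : (0 : ℝ) < j := by exact_mod_cast hj
  have hB : 0 < B N (2 ^ j) := by
    unfold B
    apply lt_min
    · have : (0 : ℝ) < (N : ℝ) ^ (1 / 3 : ℝ) := Real.rpow_pos_of_pos hN0 _
      positivity
    · positivity
  set T := (Icc 1 N).filter (fun n => C * j ^ 2 * B N (2 ^ j) < W n (2 ^ j)) with hT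
  have h1 : (T.card : ℝ) * (C * j ^ 2 * B N (2 ^ j)) ≤ N * B N (2 ^ j) := by
    refine le_trans ?_ (sum_le_B hN (2 ^ j))
    push_cast
    calc (T.card : ℝ) * (C * j ^ 2 * B N (2 ^ j)) = ∑ n ∈ T, C * j ^ 2 * B N (2 ^ j) := by
          rw [sum_const, nsmul_eq_mul]
      _ ≤ ∑ n ∈ T, (W n (2 ^ j) : ℝ) := sum_le_sum fun n hn => (mem_filter.1 hn).2.le
      _ ≤ ∑ n ∈ Icc 1 N, (W n (2 ^ j) : ℝ) :=
          sum_le_sum_of_subset_of_nonneg (filter_subset _ _) fun _ _ _ => Nat.cast_nonneg _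
  have h2 : (T.card : ℝ) * (C * j ^ 2) ≤ N := by
    have : ((T.card : ℝ) * (C * j ^ 2)) * B N (2 ^ j) ≤ N * B N (2 ^ j) := by
      linarith
    exact le_of_mul_le_mul_right this hB
  have e : (N : ℝ) / C * (1 / (j : ℝ) ^ 2) = N / (C * j ^ 2) := by
    field_simp
  rw [e, le_div_iff₀ (by positivity)]
  exact h2

/-- **typical orders** -/
theorem typical {N : ℕ} (hN : 1 ≤ N) {δ : ℝ} (hδ : 0 < δ) (S : Finset ℕ) (hS : S ⊆ Icc 1 N)
    (h : ∀ n ∈ S, ∃ x : ℕ, 2 ≤ x ∧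
      (84 / δ * Real.log x ^ 2 * (x / (N : ℝ) ^ (1 / 3 : ℝ)) < W n x ∨
        84 / δ * Real.log x ^ 2 * (x / N + (N : ℝ) ^ 2) < W n x)) :
    (S.card : ℝ) ≤ δ * N := by
  classical
  have hN0 : (0 : ℝ) < N := by exact_mod_cast hN
  set C : ℝ := 2 / δ with hC
  have hC0 : 0 < C := by positivity
  have key : ∀ n ∈ S, ∃ j : ℕ, 1 ≤ j ∧ C * j ^ 2 * B N (2 ^ j) < W n (2 ^ j) := by
    intro n hn
    obtain ⟨x, hx2, hx⟩ := h n hn
    have hx0 : (2 : ℝ) ≤ x := by exact_mod_cast hx2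
    refine ⟨Nat.clog 2 x, ?_, ?_⟩
    · exact Nat.clog_pos (by norm_num) hx2
    set j := Nat.clog 2 x with hj
    have hj1 : 1 ≤ j := Nat.clog_pos (by norm_num) hx2
    have hxj : x ≤ 2 ^ j := Nat.le_pow_clog (by norm_num) x
    have hjx : 2 ^ (j - 1) < x := Nat.pow_pred_clog_lt_self (by norm_num) hx2
    have h2j : (2 : ℝ) ^ j ≤ 2 * x := by
      have : 2 ^ j = 2 * 2 ^ (j - 1) := by
        rw [← pow_succ']
        congr 1
        omega
      have h3 : 2 ^ j ≤ 2 * x := by omega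
      exact_mod_cast h3
    have hlog2 : (0.6931 : ℝ) < Real.log 2 := lt_trans (by norm_num) Real.log_two_gt_d9
    have hlx : Real.log 2 ≤ Real.log x := Real.log_le_log (by norm_num) hx0
    have hjlog : (j : ℝ) * Real.log 2 ≤ 2 * Real.log x := by
      have h3 : Real.log ((2 : ℝ) ^ j) ≤ Real.log (2 * x) :=
        Real.log_le_log (by positivity) h2j
      rw [Real.log_pow, Real.log_mul (by norm_num) (by linarith)] at h3
      linarith
    have hj2 : (j : ℝ) ^ 2 ≤ 8.4 * Real.log x ^ 2 := by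
      have h4 : (j : ℝ) ^ 2 * Real.log 2 ^ 2 ≤ 4 * Real.log x ^ 2 := by
        have := mul_self_le_mul_self (by positivity) hjlog
        nlinarith
      have h5 : (0.48 : ℝ) ≤ Real.log 2 ^ 2 := by nlinarith
      have h6 : (j : ℝ) ^ 2 * 0.48 ≤ 4 * Real.log x ^ 2 :=
        (mul_le_mul_of_nonneg_left h5 (by positivity)).trans h4
      nlinarith [sq_nonneg (Real.log x)]
    have hWm : (W n x : ℝ) ≤ W n (2 ^ j) := by exact_mod_cast W_mono n hxj
    have hc3 : (0 : ℝ) < (N : ℝ) ^ (1 / 3 : ℝ) := Real.rpow_pos_of_pos hN0 _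
    have hCj : C * j ^ 2 ≤ 16.8 / δ * Real.log x ^ 2 := by
      rw [hC]
      have : 2 / δ * (j : ℝ) ^ 2 ≤ 2 / δ * (8.4 * Real.log x ^ 2) :=
        mul_le_mul_of_nonneg_left hj2 (by positivity)
      refine this.trans (le_of_eq ?_)
      ring
    rcases hx with hx | hx
    · refine lt_of_le_of_lt ?_ (hx.trans_le hWm)
      have hB : B N (2 ^ j) ≤ 5 * (x / (N : ℝ) ^ (1 / 3 : ℝ)) := by
        unfold B
        refine (min_le_left _ _).trans ?_
        push_cast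
        have : 5 / 2 * (2 : ℝ) ^ j / (N : ℝ) ^ (1 / 3 : ℝ) ≤ 5 / 2 * (2 * x) / (N : ℝ) ^ (1 / 3 : ℝ) := by
          gcongr
        refine this.trans (le_of_eq ?_)
        ring
      calc C * j ^ 2 * B N (2 ^ j) ≤ (16.8 / δ * Real.log x ^ 2) * (5 * (x / (N : ℝ) ^ (1 / 3 : ℝ))) := by
            apply mul_le_mul hCj hB _ (by positivity)
            unfold B
            apply le_min <;> positivity
        _ = _ := by ring
    · refine lt_of_le_of_lt ?_ (hx.trans_le hWm)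
      have hB : B N (2 ^ j) ≤ 5 * (x / N + (N : ℝ) ^ 2) := by
        unfold B
        refine (min_le_right _ _).trans ?_
        push_cast
        have e : 5 * (x / N + (N : ℝ) ^ 2) = (5 * x + 5 * (N : ℝ) ^ 3) / N := by
          field_simp
        rw [e]
        have : (0 : ℝ) ≤ (N : ℝ) ^ 3 := by positivity
        apply div_le_div_of_nonneg_right _ hN0.le
        linarith
      calc C * j ^ 2 * B N (2 ^ j) ≤ (16.8 / δ * Real.log x ^ 2) * (5 * (x / N + (N : ℝ) ^ 2)) := by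
            apply mul_le_mul hCj hB _ (by positivity)
            unfold B
            apply le_min <;> positivity
        _ = _ := by ring
  choose! j hj1 hj2 using key
  set J := S.image j with hJ
  have hcov : S ⊆ J.biUnion (fun i => (Icc 1 N).filter
      (fun n => C * i ^ 2 * B N (2 ^ i) < W n (2 ^ i))) := by
    intro n hn
    rw [mem_biUnion]
    exact ⟨j n, mem_image_of_mem j hn, mem_filter.2 ⟨hS hn, hj2 n hn⟩⟩
  have h1 : (S.card : ℝ) ≤ ∑ i ∈ J, (((Icc 1 N).filter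
      (fun n => C * i ^ 2 * B N (2 ^ i) < W n (2 ^ i))).card : ℝ) := by
    exact_mod_cast (card_le_card hcov).trans card_biUnion_le
  have hJ1 : ∀ i ∈ J, 1 ≤ i := by
    intro i hi
    obtain ⟨n, hn, rfl⟩ := mem_image.1 hi
    exact hj1 n hn
  have h2 : (S.card : ℝ) ≤ N / C * 2 := by
    refine h1.trans ((sum_le_sum fun i hi => card_bad hN i (hJ1 i hi) hC0).trans ?_)
    rw [← mul_sum]
    exact mul_le_mul_of_nonneg_left (sum_inv_sq J hJ1) (by positivity)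
  refine h2.trans (le_of_eq ?_)
  rw [hC]
  field_simp

/-- **lower densities** -/
theorem lower_density (S : Finset ℕ) (hS : ∀ n ∈ S, 1 ≤ n) (d : ℕ → ℝ)
    (h : ∀ n ∈ S, ∃ x0 : ℕ, ∀ x : ℕ, x0 ≤ x → d n * pr x ≤ W n x) : ∑ n ∈ S, d n ≤ 1 := by
  classical
  by_contra hcon
  push Not at hcon
  choose! x0 hx0 using h
  set X0 := S.sup x0 with hX0
  set N := S.sup id with hN
  have hpr : Tendsto (fun x : ℕ => (pr x : ℝ)) atTop atTop := by
    have := (tendsto_natCast_atTop_atTop (R := ℝ)).comp Nat.tendsto_primeCounting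
    refine this.congr fun x => ?_
    simp [pr_eq]
  have hev := (hpr.eventually_gt_atTop ((N.choose 3 : ℝ) / (∑ n ∈ S, d n - 1))).and
    (eventually_ge_atTop X0)
  obtain ⟨x, hx1, hx2⟩ := hev.exists
  have hpos : 0 < ∑ n ∈ S, d n - 1 := by linarith
  rw [div_lt_iff₀ hpos] at hx1
  have h1 : (∑ n ∈ S, d n) * pr x ≤ (∑ n ∈ Icc 1 N, W n x : ℕ) := by
    rw [sum_mul]
    push_cast
    calc ∑ n ∈ S, d n * pr x ≤ ∑ n ∈ S, (W n x : ℝ) :=
          sum_le_sum fun n hn => hx0 n hn x ((Finset.le_sup (f := x0) hn).trans hx2)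
      _ ≤ ∑ n ∈ Icc 1 N, (W n x : ℝ) := by
          apply sum_le_sum_of_subset_of_nonneg _ fun _ _ _ => Nat.cast_nonneg _
          intro n hn
          rw [mem_Icc]
          exact ⟨hS n hn, Finset.le_sup (f := id) hn⟩
  have h2 : ((∑ n ∈ Icc 1 N, W n x : ℕ) : ℝ) ≤ pr x + (N.choose 3 : ℕ) := by
    exact_mod_cast sum_W_le N x
  nlinarith

/-- the primes of two orders -/
theorem encard_pair {n m : ℕ} (hnm : n < m) :
    {p : ℕ | IsW n p ∧ IsW m p}.encard ≤ (m - n - 1 : ℕ) := by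
  classical
  rcases Set.finite_or_infinite {p : ℕ | IsW n p ∧ IsW m p} with hf | hf
  · rw [hf.encard_eq_coe_toFinset_card]
    have := card_pair hnm hf.toFinset (fun p hp => by simpa using hp)
    exact_mod_cast this
  · exfalso
    obtain ⟨t, ht1, ht2⟩ := hf.exists_subset_card_eq (m - n)
    have := card_pair hnm t (fun p hp => ht1 hp)
    omega

/-- at most one exceptional order -/
theorem two_orders {n m : ℕ} (hnm : n < m) :
    {p : ℕ | p.Prime ∧ ¬ IsW n p}.Infinite ∨ {p : ℕ | p.Prime ∧ ¬ IsW m p}.Infinite := by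
  by_contra hcon
  push Not at hcon
  obtain ⟨h1, h2⟩ := hcon
  have h3 : {p : ℕ | IsW n p ∧ IsW m p}.Finite := by
    have := encard_pair hnm
    exact Set.finite_of_encard_le_coe this
  have h4 : {p : ℕ | p.Prime} ⊆ {p : ℕ | p.Prime ∧ ¬ IsW n p} ∪ {p : ℕ | p.Prime ∧ ¬ IsW m p} ∪
      {p : ℕ | IsW n p ∧ IsW m p} := by
    intro p hp
    by_cases a1 : IsW n p
    · by_cases a2 : IsW m p
      · exact Or.inr ⟨a1, a2⟩
      · exact Or.inl (Or.inr ⟨hp, a2⟩)
    · exact Or.inl (Or.inl ⟨hp, a1⟩)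
  exact Nat.infinite_setOf_prime (((h1.union h2).union h3).subset h4)

end Run7.h202.Wil
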